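import Pool.Agent.H.MP_4d0082_an.B

set_option autoImplicit false

namespace Pool.Agent.Results.MP_4d0082_an.Normal
open Metric Pool.Agent.H.MP_4d0082_an

noncomputable abbrev H2 := lp (fun _ : ℕ => ℂ) 2

noncomputable def ev (f : H2) (z : ℂ) : ℂ := ∑' n, f n * z ^ n

def Nrm {V : Type} [NormedAddCommGroup V] [InnerProductSpace ℂ V] [CompleteSpace V] (T : V →L[ℂ] V) : Prop :=
  IsStarNormal T

def NormalWco (V : Type) [NormedAddCommGroup V] [InnerProductSpace ℂ V] [CompleteSpace V] (e : V → ℂ → ℂ)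
    (ψ φ : ℂ → ℂ) : Prop :=
  ∃ T : V →L[ℂ] V, (∀ f, ∀ z ∈ ball (0 : ℂ) 1, e (T f) z = ψ z * e f (φ z)) ∧ Nrm T

def Lft (φ : ℂ → ℂ) : Prop := ∃ a b c d : ℂ, a * d - b * c ≠ 0 ∧
  ∀ z ∈ ball (0 : ℂ) 1, c * z + d ≠ 0 ∧ φ z = (a * z + b) / (c * z + d)

theorem result (ψ φ : ℂ → ℂ) (_hψ : DifferentiableOn ℂ ψ (ball 0 1)) (hφ : DifferentiableOn ℂ φ (ball 0 1))
    (hm : Set.MapsTo φ (ball 0 1) (ball 0 1)) (hfix : ∀ z ∈ ball (0 : ℂ) 1, φ z ≠ z) (hl : ¬Lft φ) :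
    NormalWco H2 ev ψ φ ↔ ∀ z ∈ ball (0 : ℂ) 1, ψ z = 0 := by
  constructor
  · rintro ⟨T, hT, hN⟩
    by_contra! h0
    have an := hφ.analyticOnNhd isOpen_ball
    have nc : ¬∃ w, ∀ z ∈ ball (0 : ℂ) 1, φ z = w := by
      rintro ⟨w, hw⟩
      have h1 : w ∈ ball (0 : ℂ) 1 := hw 0 (by simp) ▸ hm (by simp)
      exact hfix w h1 (hw w h1)
    obtain ⟨z, hz, hz'⟩ := h0
    obtain ⟨h1, h2⟩ := both an (fun z hz => mem_ball_zero_iff.1 (hm (mem_ball_zero_iff.2 hz))) nc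
      (fun f z hz => hT f z (mem_ball_zero_iff.2 hz)) hN ⟨z, mem_ball_zero_iff.1 hz, hz'⟩
    obtain ⟨a, b, c, d, h3, h4⟩ := lft an nc h1 h2
    exact hl ⟨a, b, c, d, h3, fun z hz => h4 z (mem_ball_zero_iff.1 hz)⟩
  · exact fun h => ⟨0, fun f z hz => by simp [h z hz, ev], (inferInstance : IsStarNormal (0 : H2 →L[ℂ] H2))⟩

end Pool.Agent.Results.MP_4d0082_an.Normal
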